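import Mathlib

/-!
# Short words which do not see a letter
-/

set_option autoImplicit false
set_option linter.unusedSectionVars false

namespace Pool.Agent.W643.FU

open Equiv

variable {X Y : Type}

/-- evaluation of a word -/
def ev {Q : Type} [Group Q] (q : X → Q) (L : List (X × Bool)) : Q :=
  (L.map fun p => bif p.2 then q p.1 else (q p.1)⁻¹).prod

/-- the permutations of order three and two -/
def g0 : Perm (Fin 3) := c[0, 1, 2]
def h0 : Perm (Fin 3) := swap 0 1

/-- the sign of an exponent -/
def sg (b : Bool) : ℤ := bif b then 1 else -1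

theorem ev_count [DecidableEq X] (a : X) (L : List (X × Bool)) :
    ev (fun x => if x = a then Multiplicative.ofAdd (1 : ℤ) else 1) L =
      Multiplicative.ofAdd (L.map fun p => if p.1 = a then sg p.2 else 0).sum := by
  unfold ev
  induction L with
  | nil => simp
  | cons p L ih =>
    rw [List.map_cons, List.prod_cons, ih, List.map_cons, List.sum_cons, ofAdd_add]
    congr 1
    rcases p with ⟨x, b⟩
    by_cases h : x = a <;> cases b <;> simp [h, sg]

theorem bool3 : ∀ e1 e2 e3 s1 s2 s3 : Bool, (e1 = true → e2 = true → s1 = s2) →
    (e2 = true → e3 = true → s2 = s3) →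
    (bif e1 then sg s1 else 0) + ((bif e2 then sg s2 else 0) + (bif e3 then sg s3 else 0)) = 0 →
    (e1 || e2 || e3) = true → e1 = true ∧ e2 = false ∧ e3 = true := by
  decide

theorem bool4 : ∀ e1 e2 e3 e4 s1 s2 s3 s4 : Bool, (e1 = true → e2 = true → s1 = s2) →
    (e2 = true → e3 = true → s2 = s3) → (e3 = true → e4 = true → s3 = s4) →
    (bif e1 then sg s1 else 0) + ((bif e2 then sg s2 else 0) + ((bif e3 then sg s3 else 0) +
      (bif e4 then sg s4 else 0))) = 0 →
    (e1 || e2 || e3 || e4) = true →
    (e1 = true ∧ e2 = false ∧ e3 = true ∧ e4 = false) ∨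
    (e1 = false ∧ e2 = true ∧ e3 = false ∧ e4 = true) ∨
    (e1 = true ∧ e2 = false ∧ e3 = false ∧ e4 = true ∧ s4 = !s1) := by
  intro e1 e2 e3 e4
  cases e1 <;> cases e2 <;> cases e3 <;> cases e4 <;> decide

/-- Main lemma: a short reduced word containing a letter `a` of `D`, whose image does not see `a`. -/
theorem shape [DecidableEq X] (D : Set X) [DecidablePred (· ∈ D)] (a : X) (ha : a ∈ D)
    (L : List (X × Bool)) (hL : FreeGroup.IsReduced L) (hlen : L.length ≤ 4)
    (haL : ∃ t, (a, t) ∈ L)
    (hev : ∀ (Q : Type) [Group Q] (q : Option X → Q),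
      ev (fun x => q (if x ∈ D then some x else none)) L =
      ev (fun x => if x = a then 1 else q (if x ∈ D then some x else none)) L) :
    ∃ (t s : Bool) (x y : X), x ∉ D ∧ y ∉ D ∧ x ≠ y ∧
      L = [(a, t), (x, s), (y, !s), (a, !t)] := by
  have hcount : (L.map fun p => if p.1 = a then sg p.2 else 0).sum = 0 := by
    have h1 := hev (Multiplicative ℤ) (fun o => if o = some a then Multiplicative.ofAdd (1 : ℤ) else 1)
    have h2 : (fun x => if (if x ∈ D then some x else none) = some a then
        Multiplicative.ofAdd (1 : ℤ) else 1) =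
        fun x => if x = a then Multiplicative.ofAdd (1 : ℤ) else 1 := by
      funext x
      by_cases hx : x = a
      · subst hx
        simp [ha]
      · by_cases hxD : x ∈ D <;> simp [hx, hxD]
    have h3 : (fun x => if x = a then (1 : Multiplicative ℤ) else
        if (if x ∈ D then some x else none) = some a then
        Multiplicative.ofAdd (1 : ℤ) else 1) = fun _ => 1 := by
      funext x
      by_cases hx : x = a
      · simp [hx]
      · by_cases hxD : x ∈ D <;> simp [hx, hxD]
    rw [h2, h3, ev_count] at h1
    have h4 : ev (fun _ : X => (1 : Multiplicative ℤ)) L = 1 := by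
      unfold ev
      apply List.prod_eq_one
      intro y hy
      rw [List.mem_map] at hy
      obtain ⟨p, _, rfl⟩ := hy
      cases p.2 <;> simp
    rw [h4] at h1
    exact Multiplicative.ofAdd.injective (by rw [h1]; rfl)
  have hf : ∀ x, x ≠ a → (if x ∈ D then some x else none) ≠ some a := by
    intro x hx
    by_cases hxD : x ∈ D <;> simp [hx, hxD]
  have hfa : (if a ∈ D then some a else none) = some a := if_pos ha
  rcases L with _ | ⟨⟨x1, s1⟩, L⟩
  · simp at haL
  rcases L with _ | ⟨⟨x2, s2⟩, L⟩
  · exfalso
    by_cases h1 : x1 = a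
    · cases s1 <;> simp [h1, sg] at hcount
    · simp at haL
      exact h1 haL.symm
  rcases L with _ | ⟨⟨x3, s3⟩, L⟩
  · exfalso
    simp only [FreeGroup.isReduced_cons_cons, FreeGroup.IsReduced.singleton, and_true] at hL
    by_cases h1 : x1 = a <;> by_cases h2 : x2 = a <;> cases s1 <;> cases s2 <;>
      simp_all [sg, eq_comm]
  rcases L with _ | ⟨⟨x4, s4⟩, L⟩
  · exfalso
    simp only [FreeGroup.isReduced_cons_cons, FreeGroup.IsReduced.singleton, and_true] at hL
    have haL' : x1 = a ∨ x2 = a ∨ x3 = a := by
      obtain ⟨t, ht⟩ := haL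
      simp only [List.mem_cons, Prod.mk.injEq, List.not_mem_nil, or_false] at ht
      rcases ht with h | h | h
      · exact Or.inl h.1.symm
      · exact Or.inr (Or.inl h.1.symm)
      · exact Or.inr (Or.inr h.1.symm)
    clear haL
    have key : x1 = a ∧ x2 ≠ a ∧ x3 = a := by
      have h := bool3 (decide (x1 = a)) (decide (x2 = a)) (decide (x3 = a)) s1 s2 s3
        (by
          intro h1 h2
          exact hL.1 ((of_decide_eq_true h1).trans (of_decide_eq_true h2).symm))
        (by
          intro h1 h2
          exact hL.2 ((of_decide_eq_true h1).trans (of_decide_eq_true h2).symm))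
        (by
          simpa [Bool.cond_decide] using hcount)
        (by
          simpa [or_assoc] using haL')
      simpa using h
    obtain ⟨rfl, h2, rfl⟩ := key
    have h5 := hev (Perm (Fin 3)) (fun o => if o = some x3 then h0 else
      if o = (if x2 ∈ D then some x2 else none) then g0 else 1)
    unfold ev at h5
    simp only [List.map_cons, List.map_nil, List.prod_cons, List.prod_nil, hfa, if_true,
      if_neg (hf x2 h2), if_neg h2] at h5
    cases s1 <;> cases s2 <;> cases s3 <;> revert h5 <;> decide
  rcases L with _ | ⟨p5, L⟩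
  · simp only [FreeGroup.isReduced_cons_cons, FreeGroup.IsReduced.singleton, and_true] at hL
    have haL' : x1 = a ∨ x2 = a ∨ x3 = a ∨ x4 = a := by
      obtain ⟨t, ht⟩ := haL
      simp only [List.mem_cons, Prod.mk.injEq, List.not_mem_nil, or_false] at ht
      rcases ht with h | h | h | h
      · exact Or.inl h.1.symm
      · exact Or.inr (Or.inl h.1.symm)
      · exact Or.inr (Or.inr (Or.inl h.1.symm))
      · exact Or.inr (Or.inr (Or.inr h.1.symm))
    clear haL
    have key : (x1 = a ∧ x2 ≠ a ∧ x3 = a ∧ x4 ≠ a) ∨ (x1 ≠ a ∧ x2 = a ∧ x3 ≠ a ∧ x4 = a) ∨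
        (x1 = a ∧ x2 ≠ a ∧ x3 ≠ a ∧ x4 = a ∧ s4 = !s1) := by
      have h := bool4 (decide (x1 = a)) (decide (x2 = a)) (decide (x3 = a)) (decide (x4 = a))
        s1 s2 s3 s4
        (by
          intro h1 h2
          exact hL.1 ((of_decide_eq_true h1).trans (of_decide_eq_true h2).symm))
        (by
          intro h1 h2
          exact hL.2.1 ((of_decide_eq_true h1).trans (of_decide_eq_true h2).symm))
        (by
          intro h1 h2
          exact hL.2.2 ((of_decide_eq_true h1).trans (of_decide_eq_true h2).symm))
        (by
          simpa [Bool.cond_decide] using hcount)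
        (by
          simpa [or_assoc] using haL')
      simpa using h
    have hev' := fun o1 : Option X => hev (Perm (Fin 3)) (fun o => if o = some a then h0 else
      if o = o1 then g0 else 1)
    unfold ev at hev'
    simp only [List.map_cons, List.map_nil, List.prod_cons, List.prod_nil] at hev'
    rcases key with ⟨h1, h2, h3, h4⟩ | ⟨h1, h2, h3, h4⟩ | ⟨h1, h2, h3, h4, h5⟩
    · exfalso
      subst h1
      subst h3
      have h5 := hev' (if x2 ∈ D then some x2 else none)
      simp only [hfa, if_true, if_neg (hf x2 h2), if_neg (hf x4 h4), if_neg h2, if_neg h4] at h5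
      by_cases h6 : (if x4 ∈ D then some x4 else none) = (if x2 ∈ D then some x2 else none)
      · rw [if_pos h6] at h5
        cases s1 <;> cases s2 <;> cases s3 <;> cases s4 <;> revert h5 <;> decide
      · rw [if_neg h6] at h5
        cases s1 <;> cases s2 <;> cases s3 <;> cases s4 <;> revert h5 <;> decide
    · exfalso
      subst h2
      subst h4
      have h5 := hev' (if x3 ∈ D then some x3 else none)
      simp only [hfa, if_true, if_neg (hf x1 h1), if_neg (hf x3 h3), if_neg h1, if_neg h3] at h5
      by_cases h6 : (if x1 ∈ D then some x1 else none) = (if x3 ∈ D then some x3 else none)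
      · rw [if_pos h6] at h5
        cases s1 <;> cases s2 <;> cases s3 <;> cases s4 <;> revert h5 <;> decide
      · rw [if_neg h6] at h5
        cases s1 <;> cases s2 <;> cases s3 <;> cases s4 <;> revert h5 <;> decide
    · subst h1
      subst h4
      subst h5
      have h5 := hev' (if x2 ∈ D then some x2 else none)
      simp only [hfa, if_true, if_neg (hf x2 h2), if_neg (hf x3 h3), if_neg h2, if_neg h3] at h5
      by_cases h6 : (if x3 ∈ D then some x3 else none) = (if x2 ∈ D then some x2 else none)
      · rw [if_pos h6] at h5
        have h7 : s3 = !s2 := by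
          cases s1 <;> cases s2 <;> cases s3 <;> revert h5 <;> decide
        have h8 : x2 ≠ x3 := by
          intro h9
          have := hL.2.1 h9
          rw [h7] at this
          cases s2 <;> simp at this
        have h9 : x2 ∉ D := by
          intro h9
          rw [if_pos h9] at h6
          by_cases h10 : x3 ∈ D
          · rw [if_pos h10] at h6
            exact h8 (Option.some.inj h6).symm
          · rw [if_neg h10] at h6
            exact absurd h6 (by simp)
        have h10 : x3 ∉ D := by
          intro h10
          rw [if_pos h10, if_neg h9] at h6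
          exact absurd h6 (by simp)
        exact ⟨s1, s2, x2, x3, h9, h10, h8, by rw [h7]⟩
      · exfalso
        rw [if_neg h6] at h5
        cases s1 <;> cases s2 <;> cases s3 <;> revert h5 <;> decide
  · simp at hlen
    omega

end Pool.Agent.W643.FU
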