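import Pool.Agent.W643.FU.Test
import Pool.Agent.W643.FU.Alg

/-!
# The main theorem
-/

set_option autoImplicit false
set_option linter.unusedSectionVars false

namespace Pool.Agent.W643.FU

open Filter Topology Equiv

section

variable {X : Type} [MetricSpace X] [DecidableEq X]

attribute [local instance] FTop isTopGroup'

theorem far {K : Set X} (hK : IsCompact K) (P : Ultrafilter (X × Bool))
    (hP : ∀ p, ¬ (P : Filter (X × Bool)) ≤ 𝓝 p) :
    ∃ D : Set X, IsClosed D ∧ (∀ x ∈ D, x ∉ K) ∧ {p : X × Bool | p.1 ∈ D} ∈ P ∧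
      ∀ b, {p : X × Bool | p.1 ≠ b} ∈ P := by
  have h1 : ∀ x : X, ¬ (Ultrafilter.map Prod.fst P : Filter X) ≤ 𝓝 x := by
    intro x hx
    obtain ⟨b, hb⟩ : ∃ b, (Ultrafilter.map Prod.snd P : Filter Bool) ≤ 𝓝 b :=
      (isCompact_univ (X := Bool)).ultrafilter_le_nhds (Ultrafilter.map Prod.snd P)
        (le_top.trans_eq principal_univ.symm) |>.imp fun _ h => h.2
    apply hP (x, b)
    rw [nhds_prod_eq, le_prod]
    exact ⟨hx, hb⟩
  have h2 : ∃ U : Set X, IsOpen U ∧ K ⊆ U ∧ Uᶜ ∈ Ultrafilter.map Prod.fst P := by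
    refine hK.induction_on (p := fun s => ∃ U : Set X, IsOpen U ∧ s ⊆ U ∧
      Uᶜ ∈ Ultrafilter.map Prod.fst P) ?_ ?_ ?_ ?_
    · exact ⟨∅, isOpen_empty, subset_rfl, by rw [Set.compl_empty]; exact univ_mem⟩
    · rintro s t hst ⟨U, h1, h2, h3⟩
      exact ⟨U, h1, hst.trans h2, h3⟩
    · rintro s t ⟨U, h1, h2, h3⟩ ⟨U', h1', h2', h3'⟩
      refine ⟨U ∪ U', h1.union h1', Set.union_subset_union h2 h2', ?_⟩
      rw [Set.compl_union]
      exact inter_mem h3 h3'
    · intro x hx
      have h3 := h1 x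
      rw [(nhds_basis_opens x).ge_iff] at h3
      push Not at h3
      obtain ⟨U, ⟨hxU, hU⟩, hUP⟩ := h3
      refine ⟨U, mem_nhdsWithin_of_mem_nhds (hU.mem_nhds hxU), U, hU, subset_rfl, ?_⟩
      exact Ultrafilter.compl_mem_iff_notMem.2 hUP
  obtain ⟨U, hU, hKU, hUP⟩ := h2
  refine ⟨Uᶜ, hU.isClosed_compl, fun x hx hxK => hx (hKU hxK), hUP, ?_⟩
  intro b
  by_contra hb
  have h3 : {b} ∈ Ultrafilter.map Prod.fst P := by
    rw [← Ultrafilter.compl_notMem_iff]
    exact hb
  apply h1 b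
  intro s hs
  exact mem_of_superset h3 (Set.singleton_subset_iff.2 (mem_of_mem_nhds hs))

/-- the map to the discrete free group -/
noncomputable def fD (D : Set X) [DecidablePred (· ∈ D)] (x : X) : Option X :=
  if x ∈ D then some x else none

theorem disc {K D : Set X} [DecidablePred (· ∈ D)] (hiso : ∀ x, x ∉ K → IsOpen ({x} : Set X))
    (hD : IsClosed D) (hDK : ∀ x ∈ D, x ∉ K) (g : FreeGroup X) :
    ∀ᶠ w in 𝓝 g, FreeGroup.lift (fun x => FreeGroup.of (fD D x)) w =
      FreeGroup.lift (fun x => FreeGroup.of (fD D x)) g := by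
  let _ : TopologicalSpace (FreeGroup (Option X)) := ⊥
  have : DiscreteTopology (FreeGroup (Option X)) := ⟨rfl⟩
  have hc : Continuous (fun x => FreeGroup.of (fD D x)) := by
    refine continuous_of_iso (fun x hx => hiso x (hDK x hx)) fun x0 hx0 => ?_
    refine ContinuousAt.congr (f := fun _ => FreeGroup.of none) continuousAt_const ?_
    filter_upwards [hD.isOpen_compl.mem_nhds hx0] with x hx
    have : x ∉ D := hx
    simp [fD, this]
  have h1 := (continuous_lift _ hc).tendsto g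
  rw [nhds_discrete (FreeGroup (Option X)), tendsto_pure] at h1
  exact h1

/-- kill a generator -/
def kill {Y : Type} [DecidableEq Y] (a : Y) : FreeGroup Y →* FreeGroup Y :=
  FreeGroup.lift fun y => if y = a then 1 else FreeGroup.of y

theorem kill_finite {Y : Type} [DecidableEq Y] (c : FreeGroup Y) : {a | kill a c ≠ c}.Finite := by
  induction c using FreeGroup.induction_on with
  | C1 => simp
  | of y =>
    refine (Set.finite_singleton y).subset ?_
    intro a ha
    by_contra hne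
    apply ha
    have : y ≠ a := fun h => hne h.symm
    simp [kill, this]
  | inv_of y h =>
    refine h.subset ?_
    intro a ha hc
    apply ha
    rw [map_inv, hc]
  | mul x y hx hy =>
    refine (hx.union hy).subset ?_
    intro a ha
    by_contra hne
    rw [Set.mem_union, not_or] at hne
    apply ha
    simp only [ne_eq, Set.mem_ofPred_eq, not_not] at hne
    rw [map_mul, hne.1, hne.2]

/-- the letters of an element -/
theorem letters {Y : Type} (c : FreeGroup Y) : ∃ T : Finset Y, ∀ σ : Y → Y, (∀ y ∈ T, σ y = y) →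
    FreeGroup.map σ c = c := by
  classical
  induction c using FreeGroup.induction_on with
  | C1 => exact ⟨∅, fun σ _ => map_one _⟩
  | of y =>
    refine ⟨{y}, fun σ hσ => ?_⟩
    rw [FreeGroup.map.of, hσ y (by simp)]
  | inv_of y h =>
    obtain ⟨T, hT⟩ := h
    exact ⟨T, fun σ hσ => by rw [map_inv, hT σ hσ]⟩
  | mul x y hx hy =>
    obtain ⟨T, hT⟩ := hx
    obtain ⟨T', hT'⟩ := hy
    refine ⟨T ∪ T', fun σ hσ => ?_⟩
    rw [map_mul, hT σ (fun y hy => hσ y (Finset.mem_union_left _ hy)),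
      hT' σ (fun y hy => hσ y (Finset.mem_union_right _ hy))]

/-- if some letter goes to infinity then the words are nested -/
theorem nested {K : Set X} (hK : IsCompact K) (hiso : ∀ x, x ∉ K → IsOpen ({x} : Set X))
    {n : ℕ} (hn : n ≤ 4) {V : Ultrafilter (Fin n → X × Bool)} {g : FreeGroup X}
    (hred : ∀ᶠ z in (V : Filter (Fin n → X × Bool)), FreeGroup.IsReduced (List.ofFn z))
    (hW : Tendsto (W n) V (𝓝 g))
    (hV : ∃ i, ∀ p, ¬ Tendsto (fun z : Fin n → X × Bool => z i) V (𝓝 p)) :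
    ∃ (D : Set X) (i : Fin n), IsClosed D ∧ (∀ x ∈ D, x ∉ K) ∧
      (∀ b, ∀ᶠ z in (V : Filter (Fin n → X × Bool)), (z i).1 ≠ b) ∧
      ∀ᶠ z in (V : Filter (Fin n → X × Bool)), ∃ (t s : Bool) (x y : X),
        (z i).1 ∈ D ∧ x ∉ D ∧ y ∉ D ∧ x ≠ y ∧
          List.ofFn z = [((z i).1, t), (x, s), (y, !s), ((z i).1, !t)] := by
  classical
  obtain ⟨i, hi⟩ := hV
  obtain ⟨D, hD, hDK, hDP, hinf⟩ := far hK (V.map fun z : Fin n → X × Bool => z i) (fun p hp => hi p hp)
  refine ⟨D, i, hD, hDK, hinf, ?_⟩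
  have h1 : ∀ᶠ z in (V : Filter (Fin n → X × Bool)),
      FreeGroup.lift (fun x => FreeGroup.of (fD D x)) (W n z) =
      FreeGroup.lift (fun x => FreeGroup.of (fD D x)) g := hW.eventually (disc hiso hD hDK g)
  set c := FreeGroup.lift (fun x => FreeGroup.of (fD D x)) g with hc
  have h2 : ∀ᶠ z in (V : Filter (Fin n → X × Bool)), ∀ o ∈ {a | kill a c ≠ c},
      o ≠ some (z i).1 := by
    rw [(kill_finite c).eventually_all]
    intro o _
    cases o with
    | none => exact Eventually.of_forall fun z => by simp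
    | some b =>
      have h3 : ∀ᶠ z in (V : Filter (Fin n → X × Bool)), (z i).1 ≠ b := hinf b
      filter_upwards [h3] with z hz h4
      exact hz (Option.some.inj h4).symm
  have h3 : ∀ᶠ z in (V : Filter (Fin n → X × Bool)), (z i).1 ∈ D := hDP
  filter_upwards [hred, h1, h2, h3] with z hz1 hz2 hz3 hz4
  have h5 : kill (some (z i).1) c = c := by
    by_contra h
    exact hz3 _ h rfl
  obtain ⟨t, s, x, y, hx, hy, hxy, hL⟩ := shape D (z i).1 hz4 (List.ofFn z) hz1 (by simpa using hn)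
    ⟨(z i).2, by rw [List.mem_ofFn]; exact ⟨i, rfl⟩⟩ (by
      intro Q _ q
      have e1 : FreeGroup.lift (fun x => q (if x ∈ D then some x else none)) =
          (FreeGroup.lift q).comp (FreeGroup.lift (fun x => FreeGroup.of (fD D x))) := by
        ext x
        simp [fD]
      have e2 : FreeGroup.lift (fun x => if x = (z i).1 then 1 else
          q (if x ∈ D then some x else none)) =
          ((FreeGroup.lift q).comp (kill (some (z i).1))).comp
            (FreeGroup.lift (fun x => FreeGroup.of (fD D x))) := by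
        ext x
        by_cases hx : x = (z i).1
        · subst hx
          simp [fD, hz4, kill]
        · by_cases hxD : x ∈ D
          · simp [fD, hxD, kill, hx]
          · simp [fD, hxD, kill, hx]
      have e3 : ∀ q' : X → Q, ev q' (List.ofFn z) = FreeGroup.lift q' (W n z) := by
        intro q'
        rw [W, FreeGroup.lift_mk]
        rfl
      rw [e3, e3, e1, e2, MonoidHom.comp_apply, MonoidHom.comp_apply, hz2, MonoidHom.comp_apply,
        h5])
  exact ⟨t, s, x, y, hz4, hx, hy, hxy, hL⟩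

theorem tendsto_bool {ι Z : Type} {F : Filter ι} {l : Filter Z} {f : Bool → ι → Z}
    (h : ∀ b, Tendsto (f b) F l) (t : ι → Bool) : Tendsto (fun i => f (t i) i) F l := by
  intro U hU
  have h1 : ∀ᶠ i in F, ∀ b, f b i ∈ U := by
    rw [Filter.eventually_all]
    exact fun b => h b hU
  exact h1.mono fun i hi => hi (t i)

theorem mk4 (p q r w : X × Bool) : FreeGroup.mk [p, q, r, w] = lt p * (lt q * lt r) * lt w := by
  unfold lt
  simp [FreeGroup.mul_mk]

/-- short nested words converge to the identity -/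
theorem conv_nested {ι : Type} {F : Filter ι} (a : X) (t s : ι → Bool) {x y : ι → X} {k : X}
    (hx : Tendsto x F (𝓝 k)) (hy : Tendsto y F (𝓝 k)) :
    Tendsto (fun i => FreeGroup.mk [(a, t i), (x i, s i), (y i, !(s i)), (a, !(t i))]) F
      (𝓝 (1 : FreeGroup X)) := by
  have hl : ∀ (b : Bool) {u : ι → X}, Tendsto u F (𝓝 k) →
      Tendsto (fun i => lt (u i, b)) F (𝓝 (lt (k, b))) := by
    intro b u hu
    have h1 : Tendsto (fun i => (u i, b)) F (𝓝 (k, b)) := by
      rw [nhds_prod_eq]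
      exact hu.prodMk tendsto_const_nhds
    exact (continuous_lt.tendsto _).comp h1
  have h2 : Tendsto (fun i => lt (x i, s i) * (lt (y i, s i))⁻¹) F (𝓝 1) := by
    refine tendsto_bool (f := fun b i => lt (x i, b) * (lt (y i, b))⁻¹) (fun b => ?_) s
    have := (hl b hx).mul (hl b hy).inv
    rwa [mul_inv_cancel] at this
  have h3 : Tendsto (fun i => lt (a, t i) * (lt (x i, s i) * (lt (y i, s i))⁻¹) *
      (lt (a, t i))⁻¹) F (𝓝 1) := by
    refine tendsto_bool (f := fun b i => lt (a, b) * (lt (x i, s i) * (lt (y i, s i))⁻¹) *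
      (lt (a, b))⁻¹) (fun b => ?_) t
    have := (h2.const_mul (lt (a, b))).mul_const (lt (a, b))⁻¹
    rwa [mul_one, mul_inv_cancel] at this
  refine h3.congr fun i => ?_
  rw [mk4, lt_not, lt_not]

theorem abs_uu1 {K : Set X} {x y : X} {δ : ℝ} (h : ∀ w, |uu K x w - uu K y w| < δ) :
    dist x y < δ := by
  have := h (Sum.inl y)
  rw [uu_inl, uu_inl, dist_self, sub_zero, abs_of_nonneg dist_nonneg] at this
  exact this

theorem abs_uu2 {K : Set X} {x y : X} (hxy : x ≠ y) {δ : ℝ}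
    (h : ∀ w, |uu K x w - uu K y w| < δ) : Metric.infDist x K < δ := by
  have := h (Sum.inr x)
  rw [uu_inr_self, uu_inr_ne K hxy.symm, sub_zero, abs_of_nonneg Metric.infDist_nonneg] at this
  exact this

/-- the nested case -/
theorem nested_case {K : Set X} (hK : IsCompact K) (hiso : ∀ x, x ∉ K → IsOpen ({x} : Set X))
    {x0 : X} (hx0 : x0 ∈ K) {D : Set X} (hD : IsClosed D) (hDK : ∀ x ∈ D, x ∉ K)
    {V : Ultrafilter (Fin 4 → X × Bool)} {g : FreeGroup X}
    (hN : ∀ᶠ z in (V : Filter (Fin 4 → X × Bool)), NestP D z)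
    (hinf : ∀ b, ∀ᶠ z in (V : Filter (Fin 4 → X × Bool)), (z 0).1 ≠ b)
    (hW : Tendsto (W 4) V (𝓝 g)) {Z : Set (Fin 4 → X × Bool)} (hZ : Z ∈ V) :
    ∃ u : ℕ → (Fin 4 → X × Bool), (∀ n, u n ∈ Z) ∧ Tendsto (fun n => W 4 (u n)) atTop (𝓝 g) := by
  classical
  -- the neighbourhoods of `1` and of `g` are the same
  have hbox := box_test hiso hD hDK hN hinf hW
  have hd : ∀ δ : ℝ, 0 < δ → ∀ᶠ z in (V : Filter (Fin 4 → X × Bool)),
      dist (z 1).1 (z 2).1 < δ ∧ Metric.infDist (z 1).1 K < δ := by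
    intro δ hδ
    filter_upwards [hbox (fun _ => δ) (fun _ => hδ), hN] with z hz hz2
    exact ⟨abs_uu1 hz, abs_uu2 hz2.2.2.2.1 hz⟩
  have h1 : ∃ p, Tendsto (fun z : Fin 4 → X × Bool => z 1) V (𝓝 p) := by
    by_contra hcon
    push Not at hcon
    obtain ⟨D', hD', hDK', hDP', -⟩ := far hK (V.map fun z : Fin 4 → X × Bool => z 1)
      (fun p hp => hcon p hp)
    obtain ⟨δ, hδ, hth⟩ := hK.exists_thickening_subset_open hD'.isOpen_compl
      (fun x hx hx' => hDK' x hx' hx)
    have h2 : ∀ᶠ z in (V : Filter (Fin 4 → X × Bool)), (z 1).1 ∈ D' := hDP'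
    obtain ⟨z, hz1, hz2⟩ := (h2.and (hd δ hδ)).exists
    refine hth ?_ hz1
    rw [Metric.mem_thickening_iff_infDist_lt ⟨x0, hx0⟩]
    exact hz2.2
  obtain ⟨p, hp⟩ := h1
  have hx : Tendsto (fun z : Fin 4 → X × Bool => (z 1).1) V (𝓝 p.1) :=
    (continuous_fst.tendsto p).comp hp
  have hy : Tendsto (fun z : Fin 4 → X × Bool => (z 2).1) V (𝓝 p.1) := by
    refine hx.congr_dist ?_
    rw [Metric.tendsto_nhds]
    intro δ hδ
    filter_upwards [hd δ hδ] with z hz
    rw [Real.dist_0_eq_abs, abs_of_nonneg dist_nonneg]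
    exact hz.1
  have hnh : 𝓝 (1 : FreeGroup X) = 𝓝 g := by
    obtain ⟨T, hT⟩ := letters g
    let σ : X → X := fun x => if x ∈ D ∧ x ∉ T then x0 else x
    have hσ : Continuous σ := by
      refine continuous_of_iso (fun x hx => hiso x (hDK x hx)) fun x1 hx1 => ?_
      refine ContinuousAt.congr (f := id) continuousAt_id ?_
      filter_upwards [hD.isOpen_compl.mem_nhds hx1] with x hx
      have : x ∉ D := hx
      simp [σ, this]
    have hσg : FreeGroup.map σ g = g := hT σ (fun y hy => by simp [σ, hy])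
    have hσc : Continuous (FreeGroup.map σ : FreeGroup X →* FreeGroup X) := by
      have e : (FreeGroup.map σ : FreeGroup X →* FreeGroup X) =
          FreeGroup.lift (fun x => FreeGroup.of (σ x)) := by
        ext x
        simp
      rw [e]
      exact continuous_lift _ (continuous_of.comp hσ)
    have h2 : Tendsto (fun z => FreeGroup.map σ (W 4 z)) V (𝓝 g) := by
      have := (hσc.tendsto g).comp hW
      rwa [hσg] at this
    have h3 : Tendsto (fun z : Fin 4 → X × Bool => FreeGroup.mk [(x0, (z 0).2),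
        ((z 1).1, (z 1).2), ((z 2).1, !(z 1).2), (x0, !(z 0).2)]) V (𝓝 (1 : FreeGroup X)) :=
      conv_nested x0 _ _ hx hy
    have h4 : ∀ᶠ z in (V : Filter (Fin 4 → X × Bool)), ∀ b ∈ T, (z 0).1 ≠ b := by
      exact (T.finite_toSet.eventually_all).2 fun b _ => hinf b
    refine nhds_eq h3 (h2.congr' ?_)
    filter_upwards [hN, h4] with z hz hz4
    rw [hz.W_eq, FreeGroup.map.mk]
    have e0 : σ (z 0).1 = x0 := if_pos ⟨hz.1, fun h => hz4 _ h rfl⟩
    have e1 : σ (z 1).1 = (z 1).1 := if_neg (fun h => hz.2.1 h.1)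
    have e2 : σ (z 2).1 = (z 2).1 := if_neg (fun h => hz.2.2.1 h.1)
    simp only [List.map_cons, List.map_nil, e0, e1, e2]
  -- a letter
  have h5 : ∃ a ∈ D, ∀ δ : ℝ, 0 < δ → ∃ z ∈ Z, NestP D z ∧ (z 0).1 = a ∧
      dist (z 1).1 (z 2).1 < δ ∧ Metric.infDist (z 1).1 K < δ := by
    by_contra hcon
    push Not at hcon
    choose! δ hδ hδ2 using hcon
    let e : Option X → ℝ := fun o => o.elim 1 (fun a => if a ∈ D then δ a else 1)
    have he : ∀ o, 0 < e o := by
      intro o
      cases o with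
      | none => exact one_pos
      | some a =>
        by_cases ha : a ∈ D
        · simpa [e, ha] using hδ a ha
        · simp [e, ha]
    obtain ⟨z, ⟨hz1, hz2⟩, hz3⟩ := ((hbox e he).and hN |>.and hZ).exists
    have e1 : e (some (z 0).1) = δ (z 0).1 := by
      simp [e, hz2.1]
    rw [e1] at hz1
    have h6 := hδ2 _ hz2.1 z hz3 hz2 rfl (abs_uu1 hz1)
    exact absurd (abs_uu2 hz2.2.2.2.1 hz1) (not_lt.2 h6)
  obtain ⟨a, ha, h5⟩ := h5
  have h6 : ∀ m : ℕ, ∃ z ∈ Z, NestP D z ∧ (z 0).1 = a ∧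
      dist (z 1).1 (z 2).1 < 1 / ((m : ℝ) + 1) ∧ ∃ k ∈ K, dist (z 1).1 k < 1 / ((m : ℝ) + 1) := by
    intro m
    obtain ⟨z, hz1, hz2, hz3, hz4, hz5⟩ := h5 (1 / ((m : ℝ) + 1)) Nat.one_div_pos_of_nat
    exact ⟨z, hz1, hz2, hz3, hz4, (Metric.infDist_lt_iff ⟨x0, hx0⟩).1 hz5⟩
  choose z hz1 hz2 hz3 hz4 k hkK hk using h6
  obtain ⟨k0, -, φ, hφ, hk0⟩ := hK.tendsto_subseq hkK
  have h0 : Tendsto (fun m : ℕ => 1 / (((φ m : ℕ) : ℝ) + 1)) atTop (𝓝 0) :=
    tendsto_one_div_add_atTop_nhds_zero_nat.comp hφ.tendsto_atTop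
  have hx' : Tendsto (fun m => (z (φ m) 1).1) atTop (𝓝 k0) := by
    refine hk0.congr_dist ?_
    refine squeeze_zero (fun _ => dist_nonneg) (fun m => ?_) h0
    rw [dist_comm]
    exact (hk (φ m)).le
  have hy' : Tendsto (fun m => (z (φ m) 2).1) atTop (𝓝 k0) := by
    refine hx'.congr_dist ?_
    exact squeeze_zero (fun _ => dist_nonneg) (fun m => (hz4 (φ m)).le) h0
  refine ⟨fun m => z (φ m), fun m => hz1 _, ?_⟩
  rw [← hnh]
  have h7 := conv_nested (F := atTop) a (fun m => (z (φ m) 0).2) (fun m => (z (φ m) 1).2) hx' hy'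
  refine h7.congr fun m => ?_
  rw [(hz2 (φ m)).W_eq, hz3]

/-- **Main theorem.** -/
theorem main {K : Set X} (hK : IsCompact K) (hiso : ∀ x, x ∉ K → IsOpen ({x} : Set X))
    {x0 : X} (hx0 : x0 ∈ K) (A : Set (FreeGroup X))
    (hA : ∀ w ∈ A, ∃ L : List (X × Bool), L.length ≤ 4 ∧ FreeGroup.mk L = w)
    {g : FreeGroup X} (hg : g ∈ closure A) :
    ∃ u : ℕ → FreeGroup X, (∀ n, u n ∈ A) ∧ Tendsto u atTop (𝓝 g) := by
  classical
  have h1 : A ⊆ ⋃ n ∈ Finset.range 5,
      W n '' {z : Fin n → X × Bool | FreeGroup.IsReduced (List.ofFn z) ∧ W n z ∈ A} := by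
    intro w hw
    obtain ⟨L, hL, rfl⟩ := hA w hw
    have hn : (FreeGroup.mk L).toWord.length ≤ 4 := (FreeGroup.norm_mk_le).trans hL
    have hz : List.ofFn (FreeGroup.mk L).toWord.get = (FreeGroup.mk L).toWord :=
      List.ofFn_get _
    have hz2 : W _ (FreeGroup.mk L).toWord.get = FreeGroup.mk L := by
      unfold W
      rw [hz, FreeGroup.mk_toWord]
    refine Set.mem_biUnion (x := (FreeGroup.mk L).toWord.length)
      (Finset.mem_coe.2 (Finset.mem_range.2 (by omega))) ⟨(FreeGroup.mk L).toWord.get, ⟨?_, ?_⟩, hz2⟩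
    · rw [hz]
      exact FreeGroup.isReduced_toWord
    · rw [hz2]
      exact hw
  have h2 := closure_mono h1 hg
  rw [Finset.closure_biUnion] at h2
  simp only [Set.mem_iUnion, exists_prop] at h2
  obtain ⟨n, hn, h2⟩ := h2
  rw [Finset.mem_range] at hn
  obtain ⟨V, hZ, hW⟩ := exists_ultrafilter h2
  by_cases hV : ∀ i, ∃ p, Tendsto (fun z : Fin n → X × Bool => z i) V (𝓝 p)
  · choose p hp using hV
    have h3 : Tendsto id (V : Filter (Fin n → X × Bool)) (𝓝 p) := tendsto_pi_nhds.2 hp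
    have h4 : p ∈ closure {z : Fin n → X × Bool | FreeGroup.IsReduced (List.ofFn z) ∧ W n z ∈ A} :=
      mem_closure_iff_ultrafilter.2 ⟨V, hZ, h3⟩
    obtain ⟨u, hu, hlim⟩ := mem_closure_iff_seq_limit.1 h4
    refine ⟨fun m => W n (u m), fun m => (hu m).2, ?_⟩
    have h5 : Tendsto (W n) V (𝓝 (W n p)) := ((continuous_W n).tendsto p).comp h3
    rw [nhds_eq hW h5]
    exact ((continuous_W n).tendsto p).comp hlim
  · push Not at hV
    have hred : ∀ᶠ z in (V : Filter (Fin n → X × Bool)), FreeGroup.IsReduced (List.ofFn z) :=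
      mem_of_superset hZ fun z hz => hz.1
    obtain ⟨D, i, hD, hDK, hinf, hnest⟩ := nested hK hiso (by omega) hred hW hV
    obtain rfl : n = 4 := by
      obtain ⟨z, t, s, x, y, -, -, -, -, hz⟩ := hnest.exists
      have := congrArg List.length hz
      simpa using this
    have h3 : ∀ᶠ z in (V : Filter (Fin 4 → X × Bool)), NestP D z ∧ (z 0).1 = (z i).1 := by
      filter_upwards [hnest] with z hz
      obtain ⟨t, s, x, y, h1, h2, h3, h4, h5⟩ := hz
      simp only [List.ofFn_succ, List.ofFn_zero, List.cons.injEq, and_true] at h5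
      obtain ⟨e0, e1, e2, e3⟩ := h5
      have e1' : z 1 = (x, s) := e1
      have e2' : z 2 = (y, !s) := e2
      have e3' : z 3 = ((z i).1, !t) := e3
      refine ⟨⟨?_, ?_, ?_, ?_, ?_, ?_⟩, ?_⟩
      · rw [e0]; exact h1
      · rw [e1']; exact h2
      · rw [e2']; exact h3
      · rw [e1', e2']; exact h4
      · rw [e1', e2']
      · rw [e3', e0]
      · rw [e0]
    have hinf' : ∀ b, ∀ᶠ z in (V : Filter (Fin 4 → X × Bool)), (z 0).1 ≠ b := by
      intro b
      filter_upwards [h3, hinf b] with z hz hz2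
      rw [hz.2]
      exact hz2
    obtain ⟨u, hu, hlim⟩ := nested_case hK hiso hx0 hD hDK (h3.mono fun _ h => h.1) hinf' hW hZ
    exact ⟨fun m => W 4 (u m), fun m => (hu m).2, hlim⟩

end

end Pool.Agent.W643.FU
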