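import Pool.Agent.W643.FU.Top

/-!
# The box topology on a wreath product, and the test it gives
-/

set_option autoImplicit false
set_option linter.unusedSectionVars false

namespace Pool.Agent.W643.FU

open Filter Topology Equiv

/-- the base group -/
abbrev NN (S Y : Type) : Type := S → Multiplicative (Y → ℝ)

/-- the wreath product -/
abbrev HH (S Y : Type) : Type := NN S Y ⋊[mulAutArrow] Perm S

section

variable {S Y : Type}

/-- the box neighbourhoods -/
def VV (e : S → ℝ) : Set (HH S Y) :=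
  {h | h.right = 1 ∧ ∀ s y, |(Multiplicative.toAdd (h.left s)) y| < e s}

theorem left_mul_of_right {h h' : HH S Y} (hr : h.right = 1) :
    (h * h').left = h.left * h'.left := by
  rw [SemidirectProduct.mul_left, hr, map_one]
  rfl

theorem left_inv_of_right {h : HH S Y} (hr : h.right = 1) :
    (h⁻¹).left = (h.left)⁻¹ := by
  rw [SemidirectProduct.inv_left, hr, inv_one, map_one]
  rfl

/-- the filter basis -/
@[instance_reducible] def basis (S Y : Type) : GroupFilterBasis (HH S Y) where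
  sets := {V | ∃ e : S → ℝ, (∀ s, 0 < e s) ∧ V = VV e}
  nonempty := ⟨VV (fun _ => 1), fun _ => 1, fun _ => one_pos, rfl⟩
  inter_sets := by
    rintro _ _ ⟨e, he, rfl⟩ ⟨e', he', rfl⟩
    refine ⟨VV (fun s => min (e s) (e' s)), ⟨_, fun s => lt_min (he s) (he' s), rfl⟩, ?_⟩
    rintro h ⟨h1, h2⟩
    exact ⟨⟨h1, fun s y => (h2 s y).trans_le (min_le_left _ _)⟩,
      ⟨h1, fun s y => (h2 s y).trans_le (min_le_right _ _)⟩⟩
  one' := by
    rintro _ ⟨e, he, rfl⟩
    refine ⟨rfl, fun s y => ?_⟩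
    have : Multiplicative.toAdd ((1 : HH S Y).left s) y = 0 := rfl
    rw [this, abs_zero]
    exact he s
  mul' := by
    rintro _ ⟨e, he, rfl⟩
    refine ⟨VV (fun s => e s / 2), ⟨_, fun s => half_pos (he s), rfl⟩, ?_⟩
    rintro _ ⟨h, ⟨h1, h2⟩, h', ⟨h1', h2'⟩, rfl⟩
    refine ⟨by simp [h1, h1'], fun s y => ?_⟩
    show |Multiplicative.toAdd ((h * h').left s) y| < e s
    rw [left_mul_of_right h1]
    have h3 : Multiplicative.toAdd ((h.left * h'.left) s) y =
        Multiplicative.toAdd (h.left s) y + Multiplicative.toAdd (h'.left s) y := rfl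
    rw [h3]
    have := abs_add_le (Multiplicative.toAdd (h.left s) y) (Multiplicative.toAdd (h'.left s) y)
    have := h2 s y
    have := h2' s y
    linarith
  inv' := by
    rintro _ ⟨e, he, rfl⟩
    refine ⟨VV e, ⟨e, he, rfl⟩, ?_⟩
    rintro h ⟨h1, h2⟩
    refine ⟨by simp [h1], fun s y => ?_⟩
    rw [left_inv_of_right h1]
    have h3 : Multiplicative.toAdd ((h.left)⁻¹ s) y = - Multiplicative.toAdd (h.left s) y := rfl
    rw [h3, abs_neg]
    exact h2 s y
  conj' := by
    rintro k _ ⟨e, he, rfl⟩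
    refine ⟨VV (fun s => e (k.right s)), ⟨_, fun s => he _, rfl⟩, ?_⟩
    rintro h ⟨h1, h2⟩
    refine ⟨by simp [h1], fun s y => ?_⟩
    have h3 : (k * h * k⁻¹).left = (mulAutArrow k.right) h.left := by
      rw [SemidirectProduct.mul_left, SemidirectProduct.mul_left, SemidirectProduct.mul_right, h1,
        mul_one, SemidirectProduct.inv_left, ← MulAut.mul_apply, ← map_mul, mul_inv_cancel, map_one]
      rw [mul_assoc, mul_comm ((mulAutArrow k.right) h.left), ← mul_assoc]
      simp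
    rw [h3]
    have h4 : Multiplicative.toAdd ((mulAutArrow k.right) h.left s) y =
        Multiplicative.toAdd (h.left (k.right⁻¹ s)) y := rfl
    rw [h4]
    have := h2 (k.right⁻¹ s) y
    simpa using this

instance topHH : TopologicalSpace (HH S Y) := (basis S Y).topology

instance topGrpHH : IsTopologicalGroup (HH S Y) := (basis S Y).isTopologicalGroup

theorem nhds_HH (h : HH S Y) {U : Set (HH S Y)} : U ∈ 𝓝 h ↔
    ∃ e : S → ℝ, (∀ s, 0 < e s) ∧ ∀ v ∈ VV e, h * v ∈ U := by
  rw [((basis S Y).nhds_hasBasis h).mem_iff]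
  constructor
  · rintro ⟨V, ⟨e, he, rfl⟩, hV⟩
    exact ⟨e, he, fun v hv => hV ⟨v, hv, rfl⟩⟩
  · rintro ⟨e, he, hV⟩
    refine ⟨VV e, ⟨e, he, rfl⟩, ?_⟩
    rintro _ ⟨v, hv, rfl⟩
    exact hV v hv

theorem VV_mem {e : S → ℝ} (he : ∀ s, 0 < e s) : VV e ∈ 𝓝 (1 : HH S Y) := by
  rw [nhds_HH]
  exact ⟨e, he, fun v hv => by simpa using hv⟩

end

end Pool.Agent.W643.FU
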