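import Pool.Agent.W643.FU.Box

/-!
# The map to the wreath product
-/

set_option autoImplicit false
set_option linter.unusedSectionVars false

namespace Pool.Agent.W643.FU

open Filter Topology Equiv

section

variable {X : Type} [MetricSpace X] [DecidableEq X]

attribute [local instance] FTop isTopGroup'

/-- a map continuous at the points outside a closed set of isolated points -/
theorem continuous_of_iso {Z : Type} [TopologicalSpace Z] {D : Set X}
    (hiso : ∀ x ∈ D, IsOpen ({x} : Set X)) {f : X → Z} (h : ∀ x, x ∉ D → ContinuousAt f x) :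
    Continuous f := by
  rw [continuous_iff_continuousAt]
  intro x
  by_cases hx : x ∈ D
  · have h1 : 𝓝 x = pure x := (isOpen_singleton_iff_nhds_eq_pure x).1 (hiso x hx)
    rw [ContinuousAt, h1]
    exact tendsto_pure_nhds f x
  · exact h x hx

/-- the coordinates of a point -/
noncomputable def uu (K : Set X) (x : X) : X ⊕ X → ℝ :=
  Sum.elim (fun y => dist x y) (fun y => if x = y then Metric.infDist x K else 0)

theorem uu_inl (K : Set X) (x y : X) : uu K x (Sum.inl y) = dist x y := rfl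

theorem uu_inr_self (K : Set X) (x : X) : uu K x (Sum.inr x) = Metric.infDist x K := by
  unfold uu
  simp

theorem uu_inr_ne (K : Set X) {x y : X} (h : x ≠ y) : uu K x (Sum.inr y) = 0 := by
  unfold uu
  simp [h]

theorem uu_cont {K : Set X} (hiso : ∀ x, x ∉ K → IsOpen ({x} : Set X)) (x0 : X) {δ : ℝ}
    (hδ : 0 < δ) : ∀ᶠ x in 𝓝 x0, ∀ y, |uu K x y - uu K x0 y| < δ := by
  by_cases hx : x0 ∈ K
  · filter_upwards [Metric.ball_mem_nhds x0 hδ] with x hx2
    rw [Metric.mem_ball] at hx2
    rintro (y | y)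
    · rw [uu_inl, uu_inl]
      exact (abs_dist_sub_le x x0 y).trans_lt hx2
    · have h0 : uu K x0 (Sum.inr y) = 0 := by
        by_cases h : x0 = y
        · subst h
          rw [uu_inr_self]
          exact Metric.infDist_zero_of_mem hx
        · exact uu_inr_ne K h
      rw [h0, sub_zero]
      by_cases h : x = y
      · subst h
        rw [uu_inr_self, abs_of_nonneg Metric.infDist_nonneg]
        exact (Metric.infDist_le_dist_of_mem hx).trans_lt hx2
      · rw [uu_inr_ne K h, abs_zero]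
        exact hδ
  · have h1 : 𝓝 x0 = pure x0 := (isOpen_singleton_iff_nhds_eq_pure x0).1 (hiso x0 hx)
    rw [h1, eventually_pure]
    intro y
    simpa using hδ

open Classical in
/-- the map to the wreath product -/
noncomputable def ff (K D : Set X) (x : X) : HH (Option X) (X ⊕ X) :=
  if x ∈ D then SemidirectProduct.inr (swap none (some x))
  else SemidirectProduct.inl (Pi.mulSingle none (Multiplicative.ofAdd (uu K x)))

theorem ff_of_mem {K D : Set X} {x : X} (hx : x ∈ D) :
    ff K D x = SemidirectProduct.inr (swap none (some x)) := if_pos hx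

theorem ff_of_not_mem {K D : Set X} {x : X} (hx : x ∉ D) :
    ff K D x = SemidirectProduct.inl (Pi.mulSingle none (Multiplicative.ofAdd (uu K x))) :=
  if_neg hx

theorem ff_cont {K D : Set X} (hiso : ∀ x, x ∉ K → IsOpen ({x} : Set X)) (hD : IsClosed D)
    (hDK : ∀ x ∈ D, x ∉ K) : Continuous (ff K D) := by
  classical
  refine continuous_of_iso (fun x hx => hiso x (hDK x hx)) fun x0 hx0 => ?_
  intro U hU
  rw [nhds_HH] at hU
  obtain ⟨e, he, hU⟩ := hU
  rw [mem_map]
  filter_upwards [hD.isOpen_compl.mem_nhds hx0, uu_cont hiso x0 (he none)] with x hx hx2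
  have h1 : ff K D x = ff K D x0 * SemidirectProduct.inl (Pi.mulSingle none
      (Multiplicative.ofAdd (uu K x - uu K x0))) := by
    rw [ff_of_not_mem hx, ff_of_not_mem hx0, ← map_mul, ← Pi.mulSingle_mul, ← ofAdd_add]
    congr 3
    abel
  show ff K D x ∈ U
  rw [h1]
  apply hU
  refine ⟨rfl, fun s y => ?_⟩
  show |Multiplicative.toAdd ((Pi.mulSingle none (Multiplicative.ofAdd (uu K x - uu K x0)) :
    NN (Option X) (X ⊕ X)) s) y| < e s
  by_cases hs : s = none
  · subst hs
    rw [Pi.mulSingle_eq_same]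
    exact hx2 y
  · rw [Pi.mulSingle_eq_of_ne hs]
    have : Multiplicative.toAdd (1 : Multiplicative (X ⊕ X → ℝ)) y = 0 := rfl
    rw [this, abs_zero]
    exact he s

/-- the sign -/
def sgR (b : Bool) : ℝ := bif b then 1 else -1

/-- the value on nested words -/
noncomputable def el (K : Set X) (a : X) (s : Bool) (x y : X) : HH (Option X) (X ⊕ X) :=
  SemidirectProduct.inl (Pi.mulSingle (some a) (Multiplicative.ofAdd (sgR s • (uu K x - uu K y))))

theorem ff_nested {K D : Set X} {a x y : X} (ha : a ∈ D) (hx : x ∉ D) (hy : y ∉ D)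
    (t s : Bool) :
    FreeGroup.lift (ff K D) (FreeGroup.mk [(a, t), (x, s), (y, !s), (a, !t)]) =
      el K a s x y := by
  unfold el
  rw [FreeGroup.lift_mk]
  simp only [List.map_cons, List.map_nil, List.prod_cons, List.prod_nil, mul_one]
  have h1 : (bif t then ff K D a else (ff K D a)⁻¹) =
      SemidirectProduct.inr (swap none (some a)) := by
    rw [ff_of_mem ha]
    cases t
    · simp only [cond_false]
      rw [← map_inv, swap_inv]
    · simp only [cond_true]
  have h2 : (bif !t then ff K D a else (ff K D a)⁻¹) =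
      SemidirectProduct.inr (swap none (some a))⁻¹ := by
    rw [ff_of_mem ha, swap_inv]
    cases t
    · simp only [Bool.not_false, cond_true]
    · simp only [Bool.not_true, cond_false]
      rw [← map_inv, swap_inv]
  have h3 : (bif s then ff K D x else (ff K D x)⁻¹) * (bif !s then ff K D y else (ff K D y)⁻¹) =
      SemidirectProduct.inl (Pi.mulSingle none
        (Multiplicative.ofAdd (sgR s • (uu K x - uu K y)))) := by
    rw [ff_of_not_mem hx, ff_of_not_mem hy]
    cases s
    · simp only [Bool.not_false, cond_false, cond_true, sgR]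
      rw [← map_inv, ← map_mul, ← Pi.mulSingle_inv, ← Pi.mulSingle_mul, ← ofAdd_neg, ← ofAdd_add]
      congr 3
      simp
      try abel
    · simp only [Bool.not_true, cond_false, cond_true, sgR]
      rw [← map_inv, ← map_mul, ← Pi.mulSingle_inv, ← Pi.mulSingle_mul, ← ofAdd_neg, ← ofAdd_add]
      congr 3
      simp
      try abel
  rw [h1, h2, ← mul_assoc (bif s then _ else _), h3, ← mul_assoc, ← SemidirectProduct.inl_aut]
  congr 1
  funext w
  show (Pi.mulSingle none (Multiplicative.ofAdd (sgR s • (uu K x - uu K y))) :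
    NN (Option X) (X ⊕ X)) ((swap none (some a))⁻¹ w) = _
  rw [swap_inv]
  by_cases hw : w = some a
  · subst hw
    rw [swap_apply_right, Pi.mulSingle_eq_same, Pi.mulSingle_eq_same]
  · rw [Pi.mulSingle_eq_of_ne hw, Pi.mulSingle_eq_of_ne]
    intro h
    apply hw
    have := congrArg (swap none (some a)) h
    rwa [swap_apply_self, swap_apply_left] at this

/-- nested words -/
def NestP (D : Set X) (z : Fin 4 → X × Bool) : Prop :=
  (z 0).1 ∈ D ∧ (z 1).1 ∉ D ∧ (z 2).1 ∉ D ∧ (z 1).1 ≠ (z 2).1 ∧ (z 2).2 = !(z 1).2 ∧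
    z 3 = ((z 0).1, !(z 0).2)

theorem NestP.W_eq {D : Set X} {z : Fin 4 → X × Bool} (h : NestP D z) :
    W 4 z = FreeGroup.mk [((z 0).1, (z 0).2), ((z 1).1, (z 1).2), ((z 2).1, !(z 1).2),
      ((z 0).1, !(z 0).2)] := by
  unfold W
  congr 1
  obtain ⟨_, _, _, _, h5, h6⟩ := h
  rw [← h5, ← h6]
  simp [List.ofFn_succ]

theorem VV_single {S Y : Type} [DecidableEq S] {e : S → ℝ} {a a' : S} {m m' : Y → ℝ}
    (hne : a' ≠ a)
    (h : (SemidirectProduct.inl (Pi.mulSingle a (Multiplicative.ofAdd m)) : HH S Y)⁻¹ *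
      SemidirectProduct.inl (Pi.mulSingle a' (Multiplicative.ofAdd m')) ∈ VV e) (y : Y) :
    |m y| < e a := by
  rw [← map_inv, ← map_mul] at h
  have h5 := h.2 a y
  rw [SemidirectProduct.left_inl, Pi.mul_apply, Pi.inv_apply, Pi.mulSingle_eq_same,
      Pi.mulSingle_eq_of_ne hne.symm, mul_one, ← ofAdd_neg, toAdd_ofAdd, Pi.neg_apply,
      abs_neg] at h5
  exact h5

theorem cauchy {ι : Type} {H : Type} [Group H] [TopologicalSpace H] [IsTopologicalGroup H]
    {V : Filter ι} {u : ι → H} {h : H} (hu : Tendsto u V (𝓝 h)) {N : Set H}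
    (hN : N ∈ 𝓝 (1 : H)) : ∃ U ∈ V, ∀ z ∈ U, ∀ z' ∈ U, (u z)⁻¹ * u z' ∈ N := by
  have h2 : Tendsto (fun p : H × H => p.1⁻¹ * p.2) (𝓝 h ×ˢ 𝓝 h) (𝓝 1) := by
    have : Continuous (fun p : H × H => p.1⁻¹ * p.2) :=
      continuous_fst.inv.mul continuous_snd
    have h3 := this.tendsto (h, h)
    rw [nhds_prod_eq] at h3
    simpa using h3
  have h3 := h2 hN
  rw [mem_map, mem_prod_same_iff] at h3
  obtain ⟨U, hU, hUV⟩ := h3
  exact ⟨u ⁻¹' U, hu hU, fun z hz z' hz' => hUV (Set.mk_mem_prod hz hz')⟩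

theorem box_test {K D : Set X} (hiso : ∀ x, x ∉ K → IsOpen ({x} : Set X)) (hD : IsClosed D)
    (hDK : ∀ x ∈ D, x ∉ K) {V : Ultrafilter (Fin 4 → X × Bool)} {g : FreeGroup X}
    (hN : ∀ᶠ z in (V : Filter (Fin 4 → X × Bool)), NestP D z)
    (hinf : ∀ b, ∀ᶠ z in (V : Filter (Fin 4 → X × Bool)), (z 0).1 ≠ b)
    (hW : Tendsto (W 4) V (𝓝 g)) (e : Option X → ℝ) (he : ∀ s, 0 < e s) :
    ∀ᶠ z in (V : Filter (Fin 4 → X × Bool)), ∀ y, |uu K (z 1).1 y - uu K (z 2).1 y| < e (some (z 0).1) := by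
  obtain ⟨F, hFc, hF⟩ : ∃ F : FreeGroup X →* HH (Option X) (X ⊕ X), Continuous F ∧
      F = FreeGroup.lift (ff K D) := ⟨_, continuous_lift _ (ff_cont hiso hD hDK), rfl⟩
  have h1 : Tendsto (fun z => F (W 4 z)) V (𝓝 (F g)) := (hFc.tendsto g).comp hW
  obtain ⟨U, hU, hUV⟩ := cauchy h1 (VV_mem he)
  filter_upwards [hN, hU] with z hz hzU
  obtain ⟨z', ⟨hz', hzU'⟩, hne⟩ := ((hN.and hU).and (hinf (z 0).1)).exists
  intro y
  have h4 := hUV z hzU z' hzU'
  have e1 : F (W 4 z) = el K (z 0).1 (z 1).2 (z 1).1 (z 2).1 := by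
    rw [hz.W_eq, hF]
    exact ff_nested hz.1 hz.2.1 hz.2.2.1 (z 0).2 (z 1).2
  have e2 : F (W 4 z') = el K (z' 0).1 (z' 1).2 (z' 1).1 (z' 2).1 := by
    rw [hz'.W_eq, hF]
    exact ff_nested hz'.1 hz'.2.1 hz'.2.2.1 (z' 0).2 (z' 1).2
  rw [e1, e2] at h4
  have h7 := VV_single (fun h => hne (Option.some.inj h)) h4 y
  have h8 : |sgR (z 1).2| = 1 := by
    cases (z 1).2 <;> simp [sgR]
  rwa [Pi.smul_apply, smul_eq_mul, abs_mul, h8, one_mul] at h7

end

end Pool.Agent.W643.FU
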