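import Mathlib

/-!
# The free topological group: universal property, words, ultrafilters of words
-/

set_option autoImplicit false
set_option linter.unusedSectionVars false

namespace Pool.Agent.W643.FU

open Filter Topology

/-- the free group topology (Markov) -/
def FT (X : Type) [τ : TopologicalSpace X] : GroupTopology (FreeGroup X) :=
  sInf {t : GroupTopology (FreeGroup X) |
    @Continuous X (FreeGroup X) τ t.toTopologicalSpace FreeGroup.of}

/-- the topology as an instance -/
@[reducible] def FTop (X : Type) [τ : TopologicalSpace X] : TopologicalSpace (FreeGroup X) :=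
  (FT X).toTopologicalSpace

section

variable {X : Type} [τ : TopologicalSpace X]

theorem continuous_of : @Continuous X (FreeGroup X) τ (FTop X) FreeGroup.of := by
  unfold FTop FT
  rw [GroupTopology.toTopologicalSpace_sInf]
  rw [continuous_sInf_rng]
  rintro _ ⟨t, ht, rfl⟩
  exact ht

theorem isTopGroup : @IsTopologicalGroup (FreeGroup X) (FTop X) _ :=
  (FT X).toIsTopologicalGroup

attribute [local instance] FTop

theorem isTopGroup' : IsTopologicalGroup (FreeGroup X) := isTopGroup

attribute [local instance] isTopGroup'

universe u

theorem continuous_lift {H : Type u} [Group H] [TopologicalSpace H] [IsTopologicalGroup H]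
    (f : X → H) (hf : Continuous f) : Continuous (FreeGroup.lift f : FreeGroup X →* H) := by
  let t : GroupTopology (FreeGroup X) :=
    { toTopologicalSpace := TopologicalSpace.induced (FreeGroup.lift f) inferInstance
      toIsTopologicalGroup := topologicalGroup_induced (FreeGroup.lift f) }
  have ht : @Continuous X (FreeGroup X) τ t.toTopologicalSpace FreeGroup.of := by
    rw [continuous_induced_rng]
    have : (FreeGroup.lift f : FreeGroup X →* H) ∘ FreeGroup.of = f := by
      funext x
      simp
    rw [this]
    exact hf
  have h1 : FT X ≤ t := sInf_le ht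
  rw [continuous_iff_le_induced]
  exact GroupTopology.toTopologicalSpace_le.2 h1

/-- a letter -/
def lt (p : X × Bool) : FreeGroup X := FreeGroup.mk [p]

theorem lt_true (x : X) : lt (x, true) = FreeGroup.of x := rfl

theorem lt_false (x : X) : lt (x, false) = (FreeGroup.of x)⁻¹ := by
  rfl

theorem lt_not (x : X) (s : Bool) : lt (x, !s) = (lt (x, s))⁻¹ := by
  cases s
  · simp only [Bool.not_false, lt_true, lt_false, inv_inv]
  · simp only [Bool.not_true, lt_true, lt_false]

theorem continuous_lt : Continuous (lt : X × Bool → FreeGroup X) := by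
  rw [continuous_prod_of_discrete_right]
  intro b
  cases b
  · simp only [lt_false]
    exact continuous_of.inv
  · simp only [lt_true]
    exact continuous_of

/-- the word of a tuple of letters -/
def W (n : ℕ) (z : Fin n → X × Bool) : FreeGroup X := FreeGroup.mk (List.ofFn z)

theorem W_succ (n : ℕ) (z : Fin (n + 1) → X × Bool) :
    W (n + 1) z = lt (z 0) * W n (fun i => z i.succ) := by
  unfold W lt
  rw [List.ofFn_succ, FreeGroup.mul_mk]
  rfl

theorem continuous_W (n : ℕ) : Continuous (W n : (Fin n → X × Bool) → FreeGroup X) := by
  induction n with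
  | zero =>
    have : (W 0 : (Fin 0 → X × Bool) → FreeGroup X) = fun _ => 1 := by
      funext z
      rfl
    rw [this]
    exact continuous_const
  | succ n ih =>
    have : (W (n + 1) : (Fin (n + 1) → X × Bool) → FreeGroup X) =
        fun z => lt (z 0) * W n (fun i => z i.succ) := by
      funext z
      exact W_succ n z
    rw [this]
    refine Continuous.mul (continuous_lt.comp (continuous_apply 0)) (ih.comp ?_)
    exact continuous_pi fun i => continuous_apply _

/-- limits in the (possibly non Hausdorff) free topological group have the same neighbourhoods -/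
theorem nhds_eq {ι : Type} {F : Filter ι} [F.NeBot] {u : ι → FreeGroup X} {g g' : FreeGroup X}
    (h : Tendsto u F (𝓝 g)) (h' : Tendsto u F (𝓝 g')) : 𝓝 g = 𝓝 g' := by
  have h1 : ¬ Disjoint (𝓝 g) (𝓝 g') := by
    intro hd
    have h2 : map u F ≤ 𝓝 g ⊓ 𝓝 g' := le_inf h h'
    rw [disjoint_iff.1 hd, le_bot_iff, map_eq_bot_iff] at h2
    exact NeBot.ne inferInstance h2
  rw [disjoint_nhds_nhds_iff_not_inseparable, not_not] at h1
  exact h1

/-- the ultrafilter of words attached to a point of the closure -/
theorem exists_ultrafilter {n : ℕ} {Z : Set (Fin n → X × Bool)} {g : FreeGroup X}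
    (h : g ∈ closure (W n '' Z)) :
    ∃ V : Ultrafilter (Fin n → X × Bool), Z ∈ V ∧ Tendsto (W n) V (𝓝 g) := by
  rw [mem_closure_iff_clusterPt] at h
  have h1 : NeBot (comap (W n) (𝓝 g) ⊓ 𝓟 Z) := by
    rw [ClusterPt, ← map_principal, inf_comm, ← Filter.push_pull, map_neBot_iff, inf_comm] at h
    exact h
  refine ⟨Ultrafilter.of (comap (W n) (𝓝 g) ⊓ 𝓟 Z), ?_, ?_⟩
  · exact ((Ultrafilter.of_le _).trans inf_le_right) (mem_principal_self Z)
  · exact tendsto_iff_comap.2 ((Ultrafilter.of_le _).trans inf_le_left)

end

end Pool.Agent.W643.FU
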